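import Pool.Agent.Q271.TG.Alg

/-!
# The Abel-Jacobi map over the algebraic numbers and smooth affine cubic hypersurfaces

Let `k` be the field of algebraic numbers in `ℂ`. Let `q_0, …, q_r` be polynomials of degree at most
two in `M` variables over `k`. The cubic hypersurface `E : ∑ λ_j q_j(x) = 1` in the affine space of
dimension `M + r + 1` (`hypO q 1`) is smooth over `k`, of dimension `M + r`. We show that the
Abel-Jacobi map is injective on the homologically trivial cycles of all smooth quasi-projective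
varieties over `k`, in all codimensions, if and only if the regulators
`CH^j(E, 1) → H^(2 j - 1)_H(E, ℚ(j))`, `j > 1`, are injective for the hypersurfaces `E` such that
`V(q) : q_0 = … = q_r = 0` is smooth; and that it is also enough to know that the regulators
`CH^j(E, m) → H^(2 j - m)_H(E, ℚ(j))`, `j > m`, are injective for these `E`, for one `m > 0`.

With `n = d - j` the group `CH^j(X, s)` of a variety `X` of dimension `d` is `CH_n(X, s)`, and for
smooth `X` the group `H^(2 j - s)_H(X, ℚ(j))` is the absolute Hodge homology `H_(2 n + s)(X, ℚ(n))`.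
It contains the intermediate Jacobian for `s = 0`.
-/

set_option linter.checkUnivs false

namespace Pool.Agent.Results.MP_537ea0_ag.AbelJacobiOnCubics

universe u w x

open Q54.CU Pool.Agent.Q271.TG CategoryTheory AlgebraicGeometry

variable {k : Type u} [Field k]

/-- The class of the cycle `ξ` of dimension `n` on `X` is zero. -/
def HomTrivial (D : AJData.{u, w, x} k) (n : ℤ) (X : SchO k) (ξ : D.A n 0 X) : Prop :=
  vl (D.cl n X) (vl (D.c n 0 X) ξ) = 0

/-- The Abel-Jacobi map is injective on the homologically trivial cycles of dimension `n` on `X`. -/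
def AJInjective (D : AJData.{u, w, x} k) (n : ℤ) (X : SchO k) : Prop :=
  ∀ ξ η : D.A n 0 X, HomTrivial D n X ξ → HomTrivial D n X η →
    vl (D.c n 0 X) ξ = vl (D.c n 0 X) η → ξ = η

/-- The regulator `CH_n(X, s) → H_(2 n + s)(X, ℚ(n))` is injective. -/
def RegInjective (D : AJData.{u, w, x} k) (n s : ℤ) (X : SchO k) : Prop :=
  ∀ ξ η : D.A n s X, vl (D.c n s X) ξ = vl (D.c n s X) η → ξ = η

/-- Q1 for the smooth varieties over which there is an affine bundle with affine total space, that
is (by Jouanolou) for a class which contains all smooth quasi-projective varieties. -/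
def AJTorsor (D : AJData.{u, w, x} k) : Prop :=
  ∀ X : SchO k, IsVar X → Smooth X.hom → HasAffineTorsor X → ∀ n : ℤ, AJInjective D n X

/-- Q1 for the smooth affine varieties. -/
def AJAffine (D : AJData.{u, w, x} k) : Prop :=
  ∀ X : SchO k, IsVar X → Smooth X.hom → IsAffine X.left → ∀ n : ℤ, AJInjective D n X

/-- The closed subset `q_0 = … = q_r = 0` of the affine space has a structure of smooth closed
subscheme. -/
def SmoothLocus {M r : ℕ} (q : Fin (r + 1) → MvPolynomial (Fin M) k) : Prop :=
  ∃ (V : SchO k) (i : V ⟶ affO k M), IsDecomp i (cplInc q) ∧ Smooth V.hom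

/-- The regulators `CH^j(E, s) → H^(2 j - s)(E, ℚ(j))` with `j > s` are injective for all
hypersurfaces `E : ∑ λ_j q_j(x) = 1` such that `V(q)` is smooth; the dimension of `E` is `M + r`. -/
def SmoothCubics (D : AJData.{u, w, x} k) (s : ℤ) : Prop :=
  ∀ (M r : ℕ) (q : Fin (r + 1) → MvPolynomial (Fin M) k), (∀ j, (q j).totalDegree ≤ 2) →
    SmoothLocus q → ∀ j : ℤ, s < j → RegInjective D (M + r - j) s (hypO q 1)

/-- The hypersurface `E : ∑ λ_j q_j(x) = 1` is a smooth affine variety of degree at most three. -/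
def IsSmoothAffineCubic {M r : ℕ} (q : Fin (r + 1) → MvPolynomial (Fin M) k) : Prop :=
  IsVar (hypO q 1) ∧ Smooth (hypO q 1).hom ∧ IsAffine (hypO q 1).left ∧
    (hypPoly q 1).totalDegree ≤ 3

theorem aj_iff (D : AJData.{u, w, x} k) (n : ℤ) (X : SchO k) :
    AJInjective D n X ↔ RegInjective D n 0 X := by
  constructor
  · intro h ξ η hc
    have h1 : HomTrivial D n X (ξ - η) := by
      have h2 : D.c n 0 X (ξ - η) = 0 := by
        rw [map_sub]
        exact sub_eq_zero.2 hc
      show D.cl n X (D.c n 0 X (ξ - η)) = 0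
      rw [h2, map_zero]
    have h3 : HomTrivial D n X 0 := by
      show D.cl n X (D.c n 0 X 0) = 0
      rw [map_zero, map_zero]
    have h4 := h (ξ - η) 0 h1 h3 (by
      show D.c n 0 X (ξ - η) = D.c n 0 X 0
      rw [map_sub, map_zero]
      exact sub_eq_zero.2 hc)
    exact sub_eq_zero.1 h4
  · intro h ξ η _ _ hc
    exact h ξ η hc

theorem regInj_iff (D : AJData.{u, w, x} k) (n s : ℤ) (X : SchO k) :
    RegInjective D n s X ↔ Function.Injective (D.c n s X) :=
  ⟨fun h ξ η hc => h ξ η hc, fun h _ _ hc => h hc⟩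

/-- **The Abel-Jacobi map and regulators of smooth affine cubic hypersurfaces.** -/
theorem result (D : AJData.{u, w, x} k) (hD : IsAJTheory D) :
    List.TFAE [AJTorsor D, AJAffine D, SmoothCubics D 1] ∧
    (∀ m : ℕ, 0 < m → SmoothCubics D m → AJTorsor D) ∧
    ∀ (M r : ℕ) (q : Fin (r + 1) → MvPolynomial (Fin M) k), (∀ j, (q j).totalDegree ≤ 2) →
      IsSmoothAffineCubic q := by
  have hT := top_isTheory hD
  have hQ : ∀ n s X n' s' Y, Iso D.top n s X n' s' Y →
      (RegInjective D n s X ↔ RegInjective D n' s' Y) := by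
    intro n s X n' s' Y h
    rw [regInj_iff, regInj_iff]
    exact h.inj
  have hP1 : ∀ {E B : SchO k} (r : ℕ) (p : E ⟶ B), IsAffineBundle r p.left →
      Smooth B.hom → Smooth E.hom := fun r p hp h => smooth_bundle r p hp h
  have e1 : AJTorsor D ↔ TorRow (fun X => Smooth X.hom) (RegInjective D) 0 :=
    ⟨fun h X hX hS hA n => (aj_iff D n X).1 (h X hX hS hA n), fun h X hX hS hA n =>
      (aj_iff D n X).2 (h X hX hS hA n)⟩
  have e2 : AJAffine D ↔ AffRow (fun X => Smooth X.hom) (RegInjective D) 0 :=
    ⟨fun h X hX hS hA n => (aj_iff D n X).1 (h X hX hS hA n), fun h X hX hS hA n =>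
      (aj_iff D n X).2 (h X hX hS hA n)⟩
  have e3 : ∀ s : ℤ, SmoothCubics D s ↔ CubRow (fun X => Smooth X.hom) (RegInjective D) s :=
    fun s => Iff.rfl
  refine ⟨?_, ?_, ?_⟩
  · rw [e1, e2, e3]
    tfae_have 1 ↔ 2 := torRow_iff hT hP1 hQ 0
    tfae_have 3 ↔ 2 := cubRow_iff_aff hT hQ (s := 0) le_rfl
    tfae_finish
  · intro m hm h
    rw [e1, torRow_iff hT hP1 hQ 0]
    refine affRow_down hT hQ (s := 0) le_rfl (m - 1) ?_
    have h2 : ((0 : ℤ) + ((m - 1 : ℕ) : ℤ) + 1) = m := by omega
    rw [h2]
    exact (e3 m).1 h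
  · intro M r q hq
    exact ⟨(hyp_smooth q).1, (hyp_smooth q).2.1, (hyp_smooth q).2.2, totalDegree_hypPoly q 1 hq⟩

end Pool.Agent.Results.MP_537ea0_ag.AbelJacobiOnCubics
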