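import Pool.Agent.Q271.TG.Alg

/-!
# The Abel-Jacobi maps of one variety as regulators of one smooth affine cubic hypersurface

Let `k` be the field of algebraic numbers in `ℂ`, and let `X` be a variety over `k` with an affine
bundle `T → X` whose total space `T` is affine (by Jouanolou every quasi-projective variety has one).
We show that for every `N` there are polynomials `q_0, …, q_r` of degree at most two in `M` variables
over `k`, and a number `t` (the rank of the bundle), such that for the smooth affine cubic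
hypersurface `E : ∑ λ_j q_j(x) = 1` and all `n, s` with `s ≥ 0`, `n + s ≤ N` the regulators

`CH_n(X, s) → H_(2 n + s)(X, ℚ(n))` and `CH_(n + t + r)(E, s + 1) → H_(2 (n + t + r) + s + 1)(E, ℚ(n + t + r))`

are isomorphic; and, for smooth `X` (then `V(q)` is smooth), that the kernel of the Abel-Jacobi map on
the homologically trivial cycles of dimension `n ≤ N` on `X` is isomorphic to the kernel of the regulator
`CH_(n + t + r)(E, 1) → H_(2 (n + t + r) + 1)(E, ℚ(n + t + r))`.
-/

set_option linter.checkUnivs false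

namespace Pool.Agent.Results.MP_537ea0_ag.OneCubicForEachVariety

universe u w x

open Q54.CU Pool.Agent.Q271.TG CategoryTheory AlgebraicGeometry

variable {k : Type u} [Field k]

/-- The closed subset `q_0 = … = q_r = 0` of the affine space has a structure of smooth closed
subscheme. -/
def SmoothLocus {M r : ℕ} (q : Fin (r + 1) → MvPolynomial (Fin M) k) : Prop :=
  ∃ (V : SchO k) (i : V ⟶ affO k M), IsDecomp i (cplInc q) ∧ Smooth V.hom

/-- The hypersurface `E : ∑ λ_j q_j(x) = 1` is a smooth affine variety of degree at most three. -/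
def IsSmoothAffineCubic {M r : ℕ} (q : Fin (r + 1) → MvPolynomial (Fin M) k) : Prop :=
  IsVar (hypO q 1) ∧ Smooth (hypO q 1).hom ∧ IsAffine (hypO q 1).left ∧
    (hypPoly q 1).totalDegree ≤ 3

/-- The regulators of `X` in all degrees with `s ≥ 0` and `n + s ≤ N` are those of the hypersurface
`E : ∑ λ_j q_j(x) = 1`, with the indices `n + t + r` and `s + 1`. -/
def SameRegulators (D : AJData.{u, w, x} k) (N : ℕ) (X : SchO k) {M r : ℕ} (t : ℕ)
    (q : Fin (r + 1) → MvPolynomial (Fin M) k) : Prop :=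
  ∀ n s : ℤ, 0 ≤ s → n + s ≤ N → SameReg D (n + t + r) (s + 1) (hypO q 1) n s X

/-- The class of the cycle `ξ` of dimension `n` on `X` is zero. -/
def HomTrivial (D : AJData.{u, w, x} k) (n : ℤ) (X : SchO k) (ξ : D.A n 0 X) : Prop :=
  vl (D.cl n X) (vl (D.c n 0 X) ξ) = 0

/-- The kernel of the Abel-Jacobi map on the homologically trivial cycles of dimension `n` on `X`. -/
def ajKer (D : AJData.{u, w, x} k) (n : ℤ) (X : SchO k) : AddSubgroup (D.A n 0 X) where
  carrier := {ξ | HomTrivial D n X ξ ∧ vl (D.c n 0 X) ξ = 0}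
  zero_mem' := by
    constructor
    · show D.cl n X (D.c n 0 X 0) = 0
      rw [map_zero, map_zero]
    · show D.c n 0 X 0 = 0
      rw [map_zero]
  add_mem' := by
    rintro a b ⟨-, h2⟩ ⟨-, h4⟩
    have h2 : D.c n 0 X a = 0 := h2
    have h4 : D.c n 0 X b = 0 := h4
    have h5 : D.c n 0 X (a + b) = 0 := by rw [map_add, h2, h4, add_zero]
    refine ⟨?_, h5⟩
    show D.cl n X (D.c n 0 X (a + b)) = 0
    rw [h5, map_zero]
  neg_mem' := by
    rintro a ⟨-, h2⟩
    have h2 : D.c n 0 X a = 0 := h2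
    have h5 : D.c n 0 X (-a) = 0 := by rw [map_neg, h2, neg_zero]
    refine ⟨?_, h5⟩
    show D.cl n X (D.c n 0 X (-a)) = 0
    rw [h5, map_zero]

/-- The kernel of the regulator `CH_n(X, s) → H_(2 n + s)(X, ℚ(n))`. -/
def regKer (D : AJData.{u, w, x} k) (n s : ℤ) (X : SchO k) : AddSubgroup (D.A n s X) :=
  (D.c n s X).ker

/-- **One smooth affine cubic hypersurface for each variety.** -/
theorem result (D : AJData.{u, w, x} k) (hD : IsAJTheory D) (X : SchO k) (hX : IsVar X)
    (hT : HasAffineTorsor X) (N : ℕ) :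
    ∃ (M r t : ℕ) (q : Fin (r + 1) → MvPolynomial (Fin M) k), (∀ j, (q j).totalDegree ≤ 2) ∧
      IsSmoothAffineCubic q ∧ (Smooth X.hom → SmoothLocus q) ∧ SameRegulators D N X t q ∧
      ∀ n : ℤ, n ≤ N → Nonempty (ajKer D n X ≃+ regKer D (n + t + r) 1 (hypO q 1)) := by
  have hTh := top_isTheory hD
  obtain ⟨T, t, p, hTv, ha, hp⟩ := hT
  obtain ⟨M, r, q, i, hM, hq, hd⟩ := exists_decomp T hTv.ft ha (N + t + 2)
  have key : SameRegulators D N X t q := by
    intro n s hs hn
    exact same_of_iso ((smooth_iso hTh q i hd (by omega) (by omega)).trans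
      (hTh.homotopy t p hTv hX hp n s).symm)
  refine ⟨M, r, t, q, hq, ⟨(hyp_smooth q).1, (hyp_smooth q).2.1, (hyp_smooth q).2.2,
    totalDegree_hypPoly q 1 hq⟩, fun hS => ⟨T, i, hd, smooth_bundle t p hp hS⟩, key,
    fun n hn => ?_⟩
  obtain ⟨a, e, h⟩ := key n 0 le_rfl (by omega)
  have h1 : ∀ x, D.c n 0 X (a x) = e (D.c (n + t + r) (0 + 1) (hypO q 1) x) := h
  have h2 : ∀ ξ, ξ ∈ ajKer D n X ↔ D.c n 0 X ξ = 0 := by
    intro ξ
    constructor
    · exact fun h => h.2
    · intro h
      refine ⟨?_, h⟩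
      show D.cl n X (D.c n 0 X ξ) = 0
      rw [h, map_zero]
  have h3 : ∀ x, a x ∈ ajKer D n X ↔ x ∈ regKer D (n + t + r) (0 + 1) (hypO q 1) := by
    intro x
    rw [h2, h1]
    constructor
    · intro h5
      exact (AddMonoidHom.mem_ker).2 (by simpa using h5)
    · intro h5
      have h6 : D.c (n + t + r) (0 + 1) (hypO q 1) x = 0 := h5
      rw [h6, map_zero]
  have h4 : (regKer D (n + t + r) (0 + 1) (hypO q 1)).map a.toAddMonoidHom = ajKer D n X := by
    ext ξ
    constructor
    · rintro ⟨x, hx, rfl⟩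
      exact (h3 x).2 hx
    · intro hξ
      obtain ⟨x, rfl⟩ := a.surjective ξ
      exact ⟨x, (h3 x).1 hξ, rfl⟩
  have h5 : Nonempty (ajKer D n X ≃+ regKer D (n + t + r) (0 + 1) (hypO q 1)) :=
    ⟨((a.addSubgroupMap _).trans (AddEquiv.addSubgroupCongr h4)).symm⟩
  exact h5

end Pool.Agent.Results.MP_537ea0_ag.OneCubicForEachVariety
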