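import Pool.Agent.Q271.TG.Alg

/-!
# Injectivity of the regulators over the algebraic numbers for singular varieties

Let `k` be the field of algebraic numbers in `ℂ`. The regulators `CH_n(X, s) → H_(2 n + s)(X, ℚ(n))`
(rational higher Chow groups indexed by dimension, absolute Hodge homology) exist for singular
varieties `X` over `k`, too; for `s = 0` and smooth `X` the regulator is injective if and only if the
Abel-Jacobi map on the homologically trivial cycles is. Let `q_0, …, q_r` be polynomials of degree at
most two in `M` variables over `k`, and `E` the smooth affine cubic hypersurface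
`∑ λ_j q_j(x) = 1` (`hypO q 1`), of dimension `M + r`. We show that for each `s ≥ 0` the regulators
`CH_n(X, s) → H_(2 n + s)(X, ℚ(n))` are injective for all `n` and all `X` with an affine bundle over
`X` with affine total space, singular ones included, if and only if the regulators
`CH^j(E, s + 1) → H^(2 j - s - 1)(E, ℚ(j))`, `j > s + 1`, are injective for all `E`; and that the
regulators of the smooth varieties are injective for all `s ≥ 0` if and only if those of all
varieties are.
-/

set_option linter.checkUnivs false

namespace Pool.Agent.Results.MP_537ea0_ag.SingularVarieties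

universe u w x

open Q54.CU Pool.Agent.Q271.TG CategoryTheory AlgebraicGeometry

variable {k : Type u} [Field k]

/-- The regulator `CH_n(X, s) → H_(2 n + s)(X, ℚ(n))` is injective. -/
def RegInjective (D : AJData.{u, w, x} k) (n s : ℤ) (X : SchO k) : Prop :=
  ∀ ξ η : D.A n s X, vl (D.c n s X) ξ = vl (D.c n s X) η → ξ = η

/-- The regulators `CH_n(X, s) → H_(2 n + s)(X, ℚ(n))` are injective for all smooth varieties over
which there is an affine bundle with affine total space. -/
def SmoothVarieties (D : AJData.{u, w, x} k) (s : ℤ) : Prop :=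
  ∀ X : SchO k, IsVar X → Smooth X.hom → HasAffineTorsor X → ∀ n : ℤ, RegInjective D n s X

/-- The regulators `CH_n(X, s) → H_(2 n + s)(X, ℚ(n))` are injective for all varieties over which there
is an affine bundle with affine total space, singular ones included. -/
def AllVarieties (D : AJData.{u, w, x} k) (s : ℤ) : Prop :=
  ∀ X : SchO k, IsVar X → HasAffineTorsor X → ∀ n : ℤ, RegInjective D n s X

/-- The regulators `CH^j(E, s) → H^(2 j - s)(E, ℚ(j))` with `j > s` are injective for all
hypersurfaces `E : ∑ λ_j q_j(x) = 1`; the dimension of `E` is `M + r`. -/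
def AllCubics (D : AJData.{u, w, x} k) (s : ℤ) : Prop :=
  ∀ (M r : ℕ) (q : Fin (r + 1) → MvPolynomial (Fin M) k), (∀ j, (q j).totalDegree ≤ 2) →
    ∀ j : ℤ, s < j → RegInjective D (M + r - j) s (hypO q 1)

theorem regInj_iff (D : AJData.{u, w, x} k) (n s : ℤ) (X : SchO k) :
    RegInjective D n s X ↔ Function.Injective (D.c n s X) :=
  ⟨fun h ξ η hc => h ξ η hc, fun h _ _ hc => h hc⟩

/-- **Injectivity of the regulators of singular varieties.** -/
theorem result (D : AJData.{u, w, x} k) (hD : IsAJTheory D) :
    (∀ s : ℤ, 0 ≤ s → (AllVarieties D s ↔ AllCubics D (s + 1))) ∧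
    ((∀ s : ℤ, 0 ≤ s → SmoothVarieties D s) ↔ ∀ s : ℤ, 0 ≤ s → AllVarieties D s) ∧
    ∀ (M r : ℕ) (q : Fin (r + 1) → MvPolynomial (Fin M) k), (∀ j, (q j).totalDegree ≤ 2) →
      IsVar (hypO q 1) ∧ Smooth (hypO q 1).hom ∧ IsAffine (hypO q 1).left ∧
        (hypPoly q 1).totalDegree ≤ 3 := by
  have hT := top_isTheory hD
  have hQ : ∀ n s X n' s' Y, Iso D.top n s X n' s' Y →
      (RegInjective D n s X ↔ RegInjective D n' s' Y) := by
    intro n s X n' s' Y h
    rw [regInj_iff, regInj_iff]
    exact h.inj
  refine ⟨?_, ?_, ?_⟩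
  · intro s hs
    have h := cubRow_iff (P := fun _ => True) (Q := RegInjective D) hT (fun _ _ _ h => h) hQ hs
    constructor
    · intro h1 M r q hq j hj
      obtain ⟨V, i, -, -, hd⟩ := Q54.CC.exists_locus q
      exact h.2 (fun X hX _ hA n => h1 X hX hA n) M r q hq ⟨V, i, hd, trivial⟩ j hj
    · intro h1 X hX hA n
      exact h.1 (fun M r q hq _ j hj => h1 M r q hq j hj) X hX trivial hA n
  · have h := (rows_tfae (Q := RegInjective D) hT hQ).out 0 1
    have e2 : (∀ s : ℤ, 0 ≤ s → AllVarieties D s) ↔
        ∀ s : ℤ, 0 ≤ s → TorRow (fun _ => True) (RegInjective D) s :=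
      ⟨fun h s hs X hX _ hA n => h s hs X hX hA n, fun h s hs X hX hA n =>
        h s hs X hX trivial hA n⟩
    rw [e2]
    exact h
  · intro M r q hq
    exact ⟨(hyp_smooth q).1, (hyp_smooth q).2.1, (hyp_smooth q).2.2, totalDegree_hypPoly q 1 hq⟩

end Pool.Agent.Results.MP_537ea0_ag.SingularVarieties
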