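import Pool.Agent.Q207.AJ.Main
import Pool.Agent.Y120.H.Fml

/-!
# Specialisation of Abel–Jacobi images at almost all integral points

Let `V_x` be a family of smooth quasi-projective varieties over an open part of the line over `ℚ`, near any rational point `x = 0`, where
it may degenerate, and let `Z_1, …, Z_s` be families of homologically trivial cycles on the `V_x`. The
periods `∫_{γ_b} ω_c` of the classes which define the (mixed) Hodge structure `J(V_x)` belongs to and the integrals
`∫_{Γ_j} ω_c`, `∂Γ_j = Z_j`, are polynomials, with arbitrary complex coefficients, in `log x` and in G-functions with rational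
coefficients. The Abel–Jacobi image of `∑ a_j Z_j` at the point `x` is the class of `∑ a_j ∫_{Γ_j} ω_c` modulo the lattice
of the periods.

We prove the specialisation theorem of Silverman for these maps, for almost all integral points: outside a sparse set of
integers `t` a combination `∑ a_j Z_j` has torsion Abel–Jacobi image at `x = 1/t` only if it has a flat rational lift
`∑ a_j Γ_j + ∑ v_b γ_b`, invariant under monodromy. So if no combination `∑ a_j Z_j`, `a ≠ 0`, has a flat
lift (if the normal functions are independent modulo torsion and modulo the fixed part) the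
Abel–Jacobi map is injective modulo torsion on the group generated by the specialised cycles.
-/

set_option autoImplicit false

open PowerSeries

namespace Pool.Agent.Results.MP_537ea0_ag.SpecializedCycles

/-! ### Families of G-functions -/

/-- an integer polynomial as a power series with rational coefficients -/
noncomputable def toQ (P : Polynomial ℤ) : PowerSeries ℚ := ((P.map (Int.castRingHom ℚ) : Polynomial ℚ) : PowerSeries ℚ)

/-- the power series `P(u^e)` -/
noncomputable def atPow (e : ℕ) (P : Polynomial ℤ) : PowerSeries ℂ :=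
  ((Polynomial.expand ℂ e (P.map (Int.castRingHom ℂ)) : Polynomial ℂ) : PowerSeries ℂ)

/-- the matrices `G_s` over `ℤ[x]` with `T^s y^(s) = G_s y` for all solutions `y` of `T y' = A y` -/
noncomputable def iter {r : ℕ} (T : Polynomial ℤ) (A : Fin r → Fin r → Polynomial ℤ) : ℕ → Fin r → Fin r → Polynomial ℤ
  | 0 => fun i j => if i = j then 1 else 0
  | s + 1 => fun i j => T * Polynomial.derivative (iter T A s i j) + ∑ l, iter T A s i l * A l j -
      (s : Polynomial ℤ) * (Polynomial.derivative T * iter T A s i j)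

/-- The system `T y' = A y` has a fundamental matrix of solutions of the form `u^(-M) ∑_n Φ_n(u) (log u)^n` with
`u^e = x` and convergent power series `Φ_n`: the point `0` is regular or a regular singularity with rational
exponents. -/
def QuasiUnipotent {r : ℕ} (T : Polynomial ℤ) (A : Fin r → Fin r → Polynomial ℤ) : Prop :=
  ∃ (e M : ℕ) (K : ℝ) (Φ : Matrix (Fin r) (Fin r) (Polynomial (PowerSeries ℂ))), 1 ≤ e ∧ Φ.det ≠ 0 ∧
    (∀ i j n m, ‖coeff m ((Φ i j).coeff n)‖ ≤ K ^ (m + 1)) ∧
    ∀ i j n, atPow e T * (X * PowerSeries.derivative ℂ ((Φ i j).coeff n) +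
        ((n : PowerSeries ℂ) + 1) * (Φ i j).coeff (n + 1) - (M : PowerSeries ℂ) * (Φ i j).coeff n) =
      (e : PowerSeries ℂ) * X ^ e * ∑ l, atPow e (A i l) * (Φ l j).coeff n

/-- `h_1, ..., h_r` are G-functions with rational coefficients which solve the differential system `T y' = A y`, with
the conditions of Siegel and Galochkin, and `0` is a regular point or a regular singularity with rational exponents of
the system. -/
structure GFamily {r : ℕ} (T : Polynomial ℤ) (A : Fin r → Fin r → Polynomial ℤ) (h : Fin r → PowerSeries ℚ) : Prop where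
  /-- the denominator is not zero -/
  T_ne : T ≠ 0
  /-- the differential equations -/
  ode : ∀ i, toQ T * PowerSeries.derivative ℚ (h i) = ∑ j, toQ (A i j) * h j
  /-- the coefficients have geometric growth -/
  size : ∃ C : ℝ, ∀ i m, |((coeff m (h i) : ℚ) : ℝ)| ≤ C ^ (m + 1)
  /-- the common denominators of the coefficients have geometric growth -/
  den : ∃ C : ℝ, ∀ m : ℕ, ∃ d : ℕ, 0 < d ∧ (d : ℝ) ≤ C ^ (m + 1) ∧ ∀ i, ∀ j ≤ m, ∃ a : ℤ, (d : ℚ) * coeff j (h i) = a
  /-- Galochkin's condition: the common denominators of the matrices `G_s / s!` have geometric growth -/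
  galochkin : ∃ C : ℝ, ∀ m : ℕ, ∃ d : ℕ, 0 < d ∧ (d : ℝ) ≤ C ^ (m + 1) ∧ ∀ s ≤ m, ∀ i j,
    ∃ H : Polynomial ℤ, (d : Polynomial ℤ) * iter T A s i j = (s.factorial : Polynomial ℤ) * H
  /-- the local exponents at `0` are rational and the singularity is regular -/
  regular : QuasiUnipotent T A

/-! ### Period matrices, cycles and monodromy -/

section family
variable {r s n f : ℕ}

/-- The matrix of the integrals at the point `x = 1 / y`. The columns belong to the classes `ω_1, …, ω_f`, a basis of `F^p`. The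
rows belong to the chains `Γ_1, …, Γ_s` with the boundaries `Z_j` and to a basis `γ_1, …, γ_n` of the homology. The entries are the
polynomials `P a c` in `log y` and in the `h_l(1 / y)`. -/
noncomputable def periods (h : Fin r → PowerSeries ℚ) (P : Fin s ⊕ Fin n → Fin f → MvPolynomial (Option (Fin r)) ℂ) (y : ℝ) :
    Matrix (Fin s ⊕ Fin n) (Fin f) ℂ :=
  Matrix.of fun a c => MvPolynomial.aeval (fun o : Option (Fin r) => o.elim ((Real.log y : ℝ) : ℂ)
    fun l => ((∑' m : ℕ, ((coeff m (h l) : ℚ) : ℝ) * (1 / y) ^ m : ℝ) : ℂ)) (P a c)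

/-- the value at `x = 1 / y` and at the matrix `Z` of a polynomial in the entries of a matrix over `ℂ[x]` -/
noncomputable def relAt (R : MvPolynomial ((Fin s ⊕ Fin n) × Fin f) (Polynomial ℂ)) (y : ℝ)
    (Z : Matrix (Fin s ⊕ Fin n) (Fin f) ℂ) : ℂ :=
  MvPolynomial.eval₂ (Polynomial.evalRingHom (1 / (y : ℂ))) (fun v => Z v.1 v.2) R

/-- The rational matrix `g` maps `Γ_j` to `Γ_j` plus a combination of the `γ_b` and the span of the `γ_b` to itself, and it
preserves all polynomial relations over `ℂ[x]` between the integrals. All elements of the monodromy group have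
these properties, because the relations are preserved by analytic continuation; and also all rational points of its
Zariski closure. -/
structure IsMonodromy (h : Fin r → PowerSeries ℚ) (P : Fin s ⊕ Fin n → Fin f → MvPolynomial (Option (Fin r)) ℂ)
    (g : Matrix (Fin s ⊕ Fin n) (Fin s ⊕ Fin n) ℚ) : Prop where
  cycles : ∀ j j', g (Sum.inl j) (Sum.inl j') = if j = j' then 1 else 0
  homology : ∀ b j, g (Sum.inr b) (Sum.inl j) = 0
  relations : ∀ R : MvPolynomial ((Fin s ⊕ Fin n) × Fin f) (Polynomial ℂ),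
    (∀ᶠ y : ℝ in Filter.atTop, relAt R y (periods h P y) = 0) →
      ∀ᶠ y : ℝ in Filter.atTop, relAt R y ((g.map fun q : ℚ => (q : ℂ)) * periods h P y) = 0

/-- The chain `∑ a_j Γ_j` can be changed by a rational combination of the `γ_b` such that it is invariant under the monodromy
group: the normal function of `∑ a_j Z_j` has a flat rational lift. -/
def HasFlatLift (h : Fin r → PowerSeries ℚ) (P : Fin s ⊕ Fin n → Fin f → MvPolynomial (Option (Fin r)) ℂ) (a : Fin s → ℤ) : Prop :=
  ∃ v : Fin s ⊕ Fin n → ℚ, (∀ j, v (Sum.inl j) = a j) ∧ ∀ g, IsMonodromy h P g → Matrix.vecMul v g = v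

/-- The group `J = ℂ^f / Λ`, where `Λ` is generated by the periods, the rows of `M` with index `γ_b`. -/
abbrev J (M : Matrix (Fin s ⊕ Fin n) (Fin f) ℂ) : Type :=
  (Fin f → ℂ) ⧸ (Submodule.span ℤ (Set.range fun b : Fin n => M (Sum.inr b)))

/-- The periods are linearly independent over `ℝ`, so `Λ` is discrete of rank `n` (always true for the group `J` of
a mixed Hodge structure of negative weights; for a smooth projective variety `n = 2 f` and `J` is a complex torus). -/
def IsDiscrete (M : Matrix (Fin s ⊕ Fin n) (Fin f) ℂ) : Prop := LinearIndependent ℝ fun b : Fin n => M (Sum.inr b)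

/-- the Abel–Jacobi image of the cycle `∑ a_j Z_j` -/
def abelJacobi (M : Matrix (Fin s ⊕ Fin n) (Fin f) ℂ) (a : Fin s → ℤ) : J M :=
  Submodule.Quotient.mk fun c => ∑ j, (a j : ℂ) * M (Sum.inl j) c

/-- At the point `1 / t`: the Abel–Jacobi image of a combination `∑ a_j Z_j` is torsion only if the combination has a flat
rational lift. -/
def Injective (h : Fin r → PowerSeries ℚ) (P : Fin s ⊕ Fin n → Fin f → MvPolynomial (Option (Fin r)) ℂ) (t : ℕ) : Prop :=
  IsDiscrete (periods h P (t : ℝ)) → ∀ a : Fin s → ℤ, (∃ m : ℤ, m ≠ 0 ∧ m • abelJacobi (periods h P (t : ℝ)) a = 0) →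
    HasFlatLift h P a

end family

theorem iter_eq {r : ℕ} (T : Polynomial ℤ) (A : Fin r → Fin r → Polynomial ℤ) (s : ℕ) :
    iter T A s = Pool.Agent.Y120.GH.itm T A s := by
  induction s with
  | zero => rfl
  | succ s ih =>
    funext i j
    rw [iter, Pool.Agent.Y120.GH.itm, ih]

theorem qu_eq {r : ℕ} {T : Polynomial ℤ} {A : Fin r → Fin r → Polynomial ℤ} (h : QuasiUnipotent T A) :
    Pool.Agent.Y120.GH.QU0 T A := by
  obtain ⟨e, M, K, Φ, he, hdet, hc, heq⟩ := h
  have he0 : e ≠ 0 := by omega
  refine ⟨e, he0, M, K, Φ, hc, fun i j n => ?_, hdet⟩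
  have h1 := heq i j n
  simp only [atPow] at h1
  rw [Pool.Agent.Y120.GH.expand_poly he0]
  simp only [Pool.Agent.Y120.GH.expand_poly he0]
  exact h1

theorem fam {r : ℕ} {T : Polynomial ℤ} {A : Fin r → Fin r → Polynomial ℤ} {h : Fin r → PowerSeries ℚ}
    (hG : GFamily T A h) (δ : ℕ) : Pool.Agent.Y120.R.Fam δ h :=
  ⟨hG.size, Pool.Agent.Y120.GH.family_main hG.T_ne hG.ode hG.size hG.den (by
    obtain ⟨C, hC⟩ := hG.galochkin
    refine ⟨C, fun m => ?_⟩
    obtain ⟨d, h1, h2, h3⟩ := hC m
    refine ⟨d, h1, h2, fun s hs i' j' => ?_⟩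
    rw [← iter_eq]
    exact h3 s hs i' j') (qu_eq hG.regular) δ⟩

theorem result (s n f e r : ℕ) (T : Polynomial ℤ) (A : Fin r → Fin r → Polynomial ℤ) (h : Fin r → PowerSeries ℚ)
    (hG : GFamily T A h) :
    ∃ c C₀ : ℝ, 0 < c ∧ ∀ P : Fin s ⊕ Fin n → Fin f → MvPolynomial (Option (Fin r)) ℂ, (∀ a c', (P a c').totalDegree ≤ e) →
      ∀ x N : ℕ, 1 ≤ N → (({t : ℕ | (x < t ∧ t ≤ x + N) ∧ ¬ Injective h P t}.ncard : ℕ) : ℝ) ≤ C₀ * (1 + N / ((x : ℝ) + N) ^ c) := by
  classical
  obtain ⟨c, C₀, hc, -, hmain⟩ := Q207.AJ.spec (ι := Fin s ⊕ Fin n) (κ := Fin f) e h fun δ => fam hG δ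
  refine ⟨c, C₀, hc, fun P hP x N hN => ?_⟩
  have hfin : {t : ℕ | (x < t ∧ t ≤ x + N) ∧ ¬ Injective h P t}.Finite :=
    (Set.finite_Iic (x + N)).subset fun t ht => ht.1.2
  rw [Set.ncard_eq_toFinset_card _ hfin]
  refine hmain P hP x N hN _ fun t ht => ?_
  obtain ⟨hbox, hbad⟩ := hfin.mem_toFinset.1 ht
  refine ⟨hbox, ?_⟩
  unfold Injective at hbad
  push Not at hbad
  obtain ⟨hdis, a, ⟨m, hm, h0⟩, hflat⟩ := hbad
  set M := periods h P (t : ℝ) with hM
  have h1 : (m • fun c => ∑ j, (a j : ℂ) * M (Sum.inl j) c) ∈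
      Submodule.span ℤ (Set.range fun b : Fin n => M (Sum.inr b)) := by
    rw [← Submodule.Quotient.mk_eq_zero, Submodule.Quotient.mk_smul]
    exact h0
  rw [Submodule.mem_span_range_iff_exists_fun] at h1
  obtain ⟨u, hu⟩ := h1
  let v : Fin s ⊕ Fin n → ℚ := Sum.elim (fun j => (a j : ℚ)) fun b => -(u b : ℚ) / m
  have hmC : (m : ℂ) ≠ 0 := by exact_mod_cast hm
  have hv : Matrix.vecMul (fun a => (v a : ℂ)) M = 0 := by
    funext c'
    show ∑ a, (v a : ℂ) * M a c' = 0
    rw [Fintype.sum_sum_type]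
    have h2 := congrFun hu c'
    rw [Finset.sum_apply, Pi.smul_apply] at h2
    have h3 : ∑ b, (u b : ℂ) * M (Sum.inr b) c' = (m : ℂ) * ∑ j, (a j : ℂ) * M (Sum.inl j) c' := by
      refine Eq.trans (Finset.sum_congr rfl fun b _ => ?_) (h2.trans (zsmul_eq_mul _ _))
      rw [Pi.smul_apply, zsmul_eq_mul]
    have h4 : ∑ b, ((v (Sum.inr b) : ℚ) : ℂ) * M (Sum.inr b) c' = -(1 / (m : ℂ)) * ∑ b, (u b : ℂ) * M (Sum.inr b) c' := by
      rw [Finset.mul_sum]
      refine Finset.sum_congr rfl fun b _ => ?_
      show ((-(u b : ℚ) / m : ℚ) : ℂ) * _ = _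
      push_cast
      ring
    have h5 : ∑ j, ((v (Sum.inl j) : ℚ) : ℂ) * M (Sum.inl j) c' = ∑ j, (a j : ℂ) * M (Sum.inl j) c' := by
      refine Finset.sum_congr rfl fun j _ => ?_
      show (((a j : ℤ) : ℚ) : ℂ) * _ = _
      push_cast
      rfl
    rw [h4, h5, h3]
    field_simp
    ring
  refine ⟨v, hv, ?_⟩
  have hnf : ∃ g, IsMonodromy h P g ∧ Matrix.vecMul v g ≠ v := by
    by_contra hcon
    push Not at hcon
    exact hflat ⟨v, fun j => rfl, hcon⟩
  obtain ⟨g, hg, hne⟩ := hnf
  refine ⟨g.map fun q : ℚ => (q : ℂ), hg.relations, fun hz => hne ?_⟩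
  -- the difference is a rational relation between the periods
  let w : Fin s ⊕ Fin n → ℚ := Matrix.vecMul v g - v
  have hwl : ∀ j, w (Sum.inl j) = 0 := by
    intro j
    show (∑ a, v a * g a (Sum.inl j)) - v (Sum.inl j) = 0
    rw [Fintype.sum_sum_type]
    have h2 : ∑ b, v (Sum.inr b) * g (Sum.inr b) (Sum.inl j) = 0 :=
      Finset.sum_eq_zero fun b _ => by rw [hg.homology, mul_zero]
    have h3 : ∑ j', v (Sum.inl j') * g (Sum.inl j') (Sum.inl j) = v (Sum.inl j) := by
      rw [Finset.sum_eq_single j]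
      · rw [hg.cycles, if_pos rfl, mul_one]
      · intro j' _ hj
        rw [hg.cycles, if_neg hj, mul_zero]
      · intro hj
        exact absurd (Finset.mem_univ _) hj
    rw [h2, h3, add_zero, sub_self]
  have hw0 : Matrix.vecMul (fun a => (w a : ℂ)) M = 0 := by
    have h2 : (fun a => ((w a : ℚ) : ℂ)) = Matrix.vecMul (fun a => (v a : ℂ)) (g.map fun q : ℚ => (q : ℂ)) - fun a => (v a : ℂ) := by
      funext a
      show (((∑ b, v b * g b a) - v a : ℚ) : ℂ) = (∑ b, (v b : ℂ) * ((g b a : ℚ) : ℂ)) - (v a : ℂ)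
      push_cast
      rfl
    rw [h2, Matrix.sub_vecMul, hv, Matrix.vecMul_vecMul]
    have h3 : Matrix.vecMul (fun a => (v a : ℂ)) ((g.map fun q : ℚ => (q : ℂ)) * M) = 0 := hz
    rw [h3, sub_zero]
  have hwr : ∀ b, w (Sum.inr b) = 0 := by
    have h2 : ∑ b : Fin n, ((w (Sum.inr b) : ℚ) : ℝ) • M (Sum.inr b) = 0 := by
      funext c'
      have h3 : ∑ a, (w a : ℂ) * M a c' = 0 := congrFun hw0 c'
      rw [Fintype.sum_sum_type] at h3
      have h4 : ∑ j, ((w (Sum.inl j) : ℚ) : ℂ) * M (Sum.inl j) c' = 0 :=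
        Finset.sum_eq_zero fun j _ => by rw [hwl]; push_cast; rw [zero_mul]
      rw [h4, zero_add] at h3
      rw [Finset.sum_apply]
      refine Eq.trans (Finset.sum_congr rfl fun b _ => ?_) h3
      rw [Pi.smul_apply, Complex.real_smul]
      push_cast
      rfl
    intro b
    have := Fintype.linearIndependent_iff.1 hdis _ h2 b
    exact_mod_cast this
  funext a
  have h9 : w a = 0 := by
    rcases a with j | b
    · exact hwl j
    · exact hwr b
  exact sub_eq_zero.1 h9

end Pool.Agent.Results.MP_537ea0_ag.SpecializedCycles
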